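import Pool.Agent.helper6.ME.Defs
import Pool.Agent.helper62.Sieg.SWT

/-!
# ME-A: Mertens sums over the primes 1 mod l, from Siegel-Walfisz (discrete Abel summation)
-/

set_option autoImplicit false

open Finset

namespace Pool.Agent.helper6.ME

/-- Abel summation, lower bound, by induction -/
theorem mea_lower (M : ℕ) (f m e G a : ℕ → ℝ)
    (ha : ∀ n, M ≤ n → a (n + 1) = 1 + G (n + 1) - G n)
    (hf : ∀ n, M ≤ n → m (n + 1) - m n ≤ f (n + 1))
    (he : ∀ n, M ≤ n → e (n + 1) - e n ≤ (f n - f (n + 1)) * G n) :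
    ∀ w, M ≤ w → m w - m M + f w * G w - f M * G M + (e w - e M) ≤ ∑ n ∈ Ioc M w, f n * a n := by
  intro w hw
  induction w, hw using Nat.le_induction with
  | base => simp
  | succ w hw ih =>
    rw [sum_Ioc_succ_top hw, ha w hw]
    have h1 := hf w hw
    have h2 := he w hw
    nlinarith

/-- Abel summation, upper bound, by induction -/
theorem mea_upper (M : ℕ) (f m e G a : ℕ → ℝ)
    (ha : ∀ n, M ≤ n → a (n + 1) = 1 + G (n + 1) - G n)
    (hf : ∀ n, M ≤ n → f (n + 1) ≤ m (n + 1) - m n)
    (he : ∀ n, M ≤ n → (f n - f (n + 1)) * G n ≤ e (n + 1) - e n) :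
    ∀ w, M ≤ w → ∑ n ∈ Ioc M w, f n * a n ≤ m w - m M + f w * G w - f M * G M + (e w - e M) := by
  intro w hw
  induction w, hw using Nat.le_induction with
  | base => simp
  | succ w hw ih =>
    rw [sum_Ioc_succ_top hw, ha w hw]
    have h1 := hf w hw
    have h2 := he w hw
    nlinarith

theorem mea_theta_succ (l : ℕ) (hl : l.Prime) (k : ℕ) :
    BVM.thetaAP l 1 (k + 1) = BVM.thetaAP l 1 k +
      if (k + 1).Prime ∧ (k + 1) % l = 1 then Real.log ((k + 1 : ℕ) : ℝ) else 0 := by
  classical
  unfold BVM.thetaAP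
  rw [sum_filter, sum_filter, sum_Icc_succ_top (by omega)]
  congr 1
  have h1 : (1 : ℕ) % l = 1 := Nat.mod_eq_of_lt hl.one_lt
  have hiff : ((k + 1).Prime ∧ (k + 1) ≡ 1 [MOD l]) ↔ ((k + 1).Prime ∧ (k + 1) % l = 1) := by
    unfold Nat.ModEq
    rw [h1]
  by_cases h : (k + 1).Prime ∧ (k + 1) % l = 1
  · rw [if_pos h, if_pos (hiff.2 h)]
  · rw [if_neg h, if_neg (fun h' => h (hiff.1 h'))]

/-- `1 ≤ log n` for `n ≥ 3` -/
theorem mea_one_le_log {x : ℝ} (hx : 3 ≤ x) : 1 ≤ Real.log x := by
  rw [Real.le_log_iff_exp_le (by linarith)]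
  have := Real.exp_one_lt_d9
  linarith

theorem mea_log_diff_le {x : ℝ} (hx : 0 < x) : Real.log (x + 1) - Real.log x ≤ 1 / x := by
  rw [← Real.log_div (by linarith) hx.ne']
  have h := Real.log_le_sub_one_of_pos (show 0 < (x + 1) / x by positivity)
  have he : (x + 1) / x - 1 = 1 / x := by field_simp; ring
  linarith

theorem mea_le_log_diff {x : ℝ} (hx : 0 < x) : 1 / (x + 1) ≤ Real.log (x + 1) - Real.log x := by
  rw [← Real.log_div (by linarith) hx.ne']
  have h := Real.one_sub_inv_le_log_of_pos (show 0 < (x + 1) / x by positivity)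
  have he : 1 - ((x + 1) / x)⁻¹ = 1 / (x + 1) := by
    rw [inv_div]; field_simp; ring
  linarith

/-- the error term of the first sum telescopes -/
theorem mea_key {x : ℝ} (hx : 3 ≤ x) :
    0 ≤ 1 / (x * Real.log x) - 1 / ((x + 1) * Real.log (x + 1)) ∧
    (1 / (x * Real.log x) - 1 / ((x + 1) * Real.log (x + 1))) * (x / Real.log x) ≤
      4 * (1 / Real.log x - 1 / Real.log (x + 1)) := by
  have ha1 : 1 ≤ Real.log x := mea_one_le_log hx
  have h1 := mea_log_diff_le (show 0 < x by linarith)
  have h2 := mea_le_log_diff (show 0 < x by linarith)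
  have hb2 : Real.log (x + 1) ≤ 2 * Real.log x := by
    have : Real.log (x + 1) ≤ Real.log (x ^ 2) := Real.log_le_log (by linarith) (by nlinarith)
    rw [Real.log_pow] at this
    push_cast at this
    exact this
  generalize Real.log x = a at *
  generalize Real.log (x + 1) = b at *
  have hx0 : 0 < x := by linarith
  have ha0 : 0 < a := by linarith
  rw [le_div_iff₀ hx0] at h1
  rw [div_le_iff₀ (by linarith)] at h2
  have hab : a < b := by
    by_contra hcon
    push Not at hcon
    nlinarith
  have hb0 : 0 < b := by linarith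
  constructor
  · rw [sub_nonneg]
    apply one_div_le_one_div_of_le (by positivity)
    nlinarith
  · have e1 : (1 / (x * a) - 1 / ((x + 1) * b)) * (x / a) =
        ((x + 1) * b - x * a) / ((x + 1) * a ^ 2 * b) := by
      field_simp
    have e2 : 4 * (1 / a - 1 / b) = (4 * (b - a) * ((x + 1) * a)) / ((x + 1) * a ^ 2 * b) := by
      field_simp
    rw [e1, e2]
    apply div_le_div_of_nonneg_right _ (by positivity)
    nlinarith

theorem mea_loglog {x : ℝ} (hx : 3 ≤ x) :
    Real.log (Real.log (x + 1)) - Real.log (Real.log x) ≤ 1 / (x * Real.log x) := by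
  have ha1 : 1 ≤ Real.log x := mea_one_le_log hx
  have hx0 : 0 < x := by linarith
  have hb1 : 1 ≤ Real.log (x + 1) := mea_one_le_log (by linarith)
  have h1 := mea_log_diff_le hx0
  have ha0 : 0 < Real.log x := by linarith
  rw [← Real.log_div (by linarith) (by linarith)]
  have h := Real.log_le_sub_one_of_pos (show 0 < Real.log (x + 1) / Real.log x by
    apply div_pos <;> linarith)
  refine h.trans ?_
  have he : Real.log (x + 1) / Real.log x - 1 = (Real.log (x + 1) - Real.log x) / Real.log x := by
    field_simp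
  rw [he, ← div_div]
  exact div_le_div_of_nonneg_right h1 ha0.le

theorem A_sum (N : ℕ) (hN : 1 ≤ N) : ∃ (C : ℝ) (M0 : ℕ), 0 ≤ C ∧ 3 ≤ M0 ∧
    ∀ l : ℕ, l.Prime → ∀ M w : ℕ, M0 ≤ M → M ≤ w → (l : ℝ) ≤ Real.log M ^ N →
      Real.log (Real.log w) - Real.log (Real.log M) - C ≤
          ((l : ℝ) - 1) * ∑ p ∈ PA l M w, (1 : ℝ) / p ∧
        ((l : ℝ) - 1) * ∑ p ∈ PA l M w, Real.log p / p ≤ C * Real.log w := by
  classical
  obtain ⟨C, x₀, hC, hx₀, hsw⟩ := Pool.Agent.helper62.Sieg.theta_sw (N + 1) N
  refine ⟨1 + 6 * C, max 3 ⌈x₀⌉₊, by positivity, le_max_left _ _, ?_⟩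
  intro l hl M w hM0 hMw hlM
  have hM3 : 3 ≤ M := (le_max_left _ _).trans hM0
  have hMx : x₀ ≤ (M : ℝ) := (Nat.le_ceil x₀).trans (by exact_mod_cast (le_max_right _ _).trans hM0)
  have hl1 : (1 : ℝ) ≤ l := by exact_mod_cast hl.one_le
  -- the error function
  set G : ℕ → ℝ := fun t => ((l : ℝ) - 1) * BVM.thetaAP l 1 t - t with hG
  set a : ℕ → ℝ := fun n => ((l : ℝ) - 1) *
    (if n.Prime ∧ n % l = 1 then Real.log (n : ℝ) else 0) with ha
  have haG : ∀ n, M ≤ n → a (n + 1) = 1 + G (n + 1) - G n := by
    intro n _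
    simp only [hG, ha]
    rw [mea_theta_succ l hl n]
    push_cast
    ring
  have hcast : ∀ n, M ≤ n → (3 : ℝ) ≤ n := by
    intro n hn
    exact_mod_cast hM3.trans hn
  have hlog1 : ∀ n, M ≤ n → 1 ≤ Real.log (n : ℝ) := fun n hn => mea_one_le_log (hcast n hn)
  have hGb : ∀ n, M ≤ n → |G n| ≤ C * (n / Real.log n) := by
    intro n hn
    have hn3 := hcast n hn
    have hL1 := hlog1 n hn
    have hMn : (M : ℝ) ≤ n := by exact_mod_cast hn
    have hlogMn : Real.log M ≤ Real.log n :=
      Real.log_le_log (by linarith [hcast M le_rfl]) hMn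
    have hlog0 : 0 ≤ Real.log (M : ℝ) := by linarith [hlog1 M le_rfl]
    have hln : (l : ℝ) ≤ Real.log n ^ N := hlM.trans (pow_le_pow_left₀ hlog0 hlogMn N)
    have h := hsw (n : ℝ) (hMx.trans hMn) l hl.one_le hln 1 (Nat.coprime_one_left l) n le_rfl
    rw [Nat.totient_prime hl, Nat.cast_sub hl.one_le, Nat.cast_one] at h
    rcases eq_or_lt_of_le hl1 with h0 | h0
    · exfalso
      have : l = 1 := by exact_mod_cast h0.symm
      exact hl.one_lt.ne' this
    · have hl0 : 0 < (l : ℝ) - 1 := by linarith
      have hGe : G n = ((l : ℝ) - 1) * (BVM.thetaAP l 1 n - n / ((l : ℝ) - 1)) := by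
        simp only [hG]
        field_simp
      rw [hGe, abs_mul, abs_of_pos hl0]
      have hLN : 0 < Real.log (n : ℝ) ^ N := by positivity
      have hL0 : 0 < Real.log (n : ℝ) := by linarith
      calc ((l : ℝ) - 1) * |BVM.thetaAP l 1 n - n / ((l : ℝ) - 1)|
          ≤ Real.log n ^ N * (C * n / Real.log n ^ (N + 1)) := by
            apply mul_le_mul (by linarith) h (abs_nonneg _) hLN.le
        _ = C * (n / Real.log n) := by
            rw [pow_succ]
            field_simp
  have hcast1 : ∀ n : ℕ, ((n + 1 : ℕ) : ℝ) = (n : ℝ) + 1 := fun n => by push_cast; ring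
  have hw3 := hcast w hMw
  have hM3' := hcast M le_rfl
  have hLw := hlog1 w hMw
  have hLM := hlog1 M le_rfl
  have hGw := abs_le.1 (hGb w hMw)
  have hGM := abs_le.1 (hGb M le_rfl)
  constructor
  · -- first sum
    have hsum : ((l : ℝ) - 1) * ∑ p ∈ PA l M w, (1 : ℝ) / p =
        ∑ n ∈ Ioc M w, (1 / ((n : ℝ) * Real.log n)) * a n := by
      unfold PA
      rw [sum_filter, mul_sum]
      apply sum_congr rfl
      intro n hn
      rw [mem_Ioc] at hn
      have hn3 := hcast n hn.1.le
      have hL := hlog1 n hn.1.le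
      simp only [ha]
      split_ifs
      · have : Real.log (n : ℝ) ≠ 0 := by linarith
        have : (n : ℝ) ≠ 0 := by linarith
        field_simp
      · simp
    rw [hsum]
    have hmain := mea_lower M (fun n => 1 / ((n : ℝ) * Real.log n))
      (fun n => Real.log (Real.log ((n : ℝ) + 1))) (fun n => C * (4 / Real.log n)) G a haG
      (by
        intro n hn
        simp only [hcast1]
        exact mea_loglog (by linarith [hcast n hn]))
      (by
        intro n hn
        simp only [hcast1]
        obtain ⟨k1, k2⟩ := mea_key (hcast n hn)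
        have hg := abs_le.1 (hGb n hn)
        have h3 : -((1 / ((n : ℝ) * Real.log n) - 1 / (((n : ℝ) + 1) * Real.log ((n : ℝ) + 1))) *
            (C * (n / Real.log n))) ≤
            (1 / ((n : ℝ) * Real.log n) - 1 / (((n : ℝ) + 1) * Real.log ((n : ℝ) + 1))) * G n := by
          rw [← mul_neg]
          exact mul_le_mul_of_nonneg_left hg.1 k1
        have h4 := mul_le_mul_of_nonneg_left k2 hC
        calc C * (4 / Real.log ((n : ℝ) + 1)) - C * (4 / Real.log n)
            = -(C * (4 * (1 / Real.log n - 1 / Real.log ((n : ℝ) + 1)))) := by ring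
          _ ≤ -(C * ((1 / ((n : ℝ) * Real.log n) -
              1 / (((n : ℝ) + 1) * Real.log ((n : ℝ) + 1))) * (n / Real.log n))) := by linarith
          _ = -((1 / ((n : ℝ) * Real.log n) - 1 / (((n : ℝ) + 1) * Real.log ((n : ℝ) + 1))) *
            (C * (n / Real.log n))) := by ring
          _ ≤ _ := h3) w hMw
    refine le_trans ?_ hmain
    -- estimates of the boundary terms
    have b1 : Real.log (Real.log w) ≤ Real.log (Real.log ((w : ℝ) + 1)) :=
      Real.log_le_log (by linarith) (Real.log_le_log (by linarith) (by linarith))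
    have b2 : Real.log (Real.log ((M : ℝ) + 1)) - Real.log (Real.log M) ≤ 1 := by
      refine (mea_loglog hM3').trans ?_
      rw [div_le_one (by positivity)]
      nlinarith
    have b3 : -C ≤ 1 / ((w : ℝ) * Real.log w) * G w := by
      have hp : 0 ≤ 1 / ((w : ℝ) * Real.log w) := by positivity
      have := mul_le_mul_of_nonneg_left hGw.1 hp
      refine le_trans ?_ this
      have he : 1 / ((w : ℝ) * Real.log w) * -(C * (w / Real.log w)) =
          -(C * (1 / Real.log w ^ 2)) := by
        have : Real.log (w : ℝ) ≠ 0 := by linarith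
        have : (w : ℝ) ≠ 0 := by linarith
        field_simp
      rw [he, neg_le_neg_iff]
      have : 1 / Real.log (w : ℝ) ^ 2 ≤ 1 := by
        rw [div_le_one (by positivity)]
        exact one_le_pow₀ hLw
      calc C * (1 / Real.log w ^ 2) ≤ C * 1 := mul_le_mul_of_nonneg_left this hC
        _ = C := mul_one C
    have b4 : 1 / ((M : ℝ) * Real.log M) * G M ≤ C := by
      have hp : 0 ≤ 1 / ((M : ℝ) * Real.log M) := by positivity
      have := mul_le_mul_of_nonneg_left hGM.2 hp
      refine this.trans ?_
      have he : 1 / ((M : ℝ) * Real.log M) * (C * (M / Real.log M)) =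
          (C * (1 / Real.log M ^ 2)) := by
        have : Real.log (M : ℝ) ≠ 0 := by linarith
        have : (M : ℝ) ≠ 0 := by linarith
        field_simp
      rw [he]
      have : 1 / Real.log (M : ℝ) ^ 2 ≤ 1 := by
        rw [div_le_one (by positivity)]
        exact one_le_pow₀ hLM
      calc C * (1 / Real.log M ^ 2) ≤ C * 1 := mul_le_mul_of_nonneg_left this hC
        _ = C := mul_one C
    have b5 : C * (4 / Real.log M) ≤ 4 * C := by
      have : 4 / Real.log (M : ℝ) ≤ 4 := by
        rw [div_le_iff₀ (by linarith)]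
        linarith
      calc C * (4 / Real.log M) ≤ C * 4 := mul_le_mul_of_nonneg_left this hC
        _ = 4 * C := mul_comm _ _
    have b6 : 0 ≤ C * (4 / Real.log w) := by positivity
    linarith
  · -- second sum
    have hsum : ((l : ℝ) - 1) * ∑ p ∈ PA l M w, Real.log p / p =
        ∑ n ∈ Ioc M w, (1 / (n : ℝ)) * a n := by
      unfold PA
      rw [sum_filter, mul_sum]
      apply sum_congr rfl
      intro n hn
      simp only [ha]
      split_ifs
      · ring
      · simp
    rw [hsum]
    have hmain := mea_upper M (fun n => 1 / (n : ℝ))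
      (fun n => Real.log (n : ℝ)) (fun n => C * Real.log n) G a haG
      (by
        intro n hn
        simp only [hcast1]
        exact mea_le_log_diff (by linarith [hcast n hn]))
      (by
        intro n hn
        simp only [hcast1]
        have hn3 := hcast n hn
        have hL := hlog1 n hn
        have hg := abs_le.1 (hGb n hn)
        have hp : 0 ≤ 1 / (n : ℝ) - 1 / ((n : ℝ) + 1) := by
          rw [sub_nonneg]
          exact one_div_le_one_div_of_le (by linarith) (by linarith)
        have h3 := mul_le_mul_of_nonneg_left hg.2 hp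
        refine h3.trans ?_
        have he : (1 / (n : ℝ) - 1 / ((n : ℝ) + 1)) * (C * (n / Real.log n)) =
            C * (1 / (((n : ℝ) + 1) * Real.log n)) := by
          have : Real.log (n : ℝ) ≠ 0 := by linarith
          have : (n : ℝ) ≠ 0 := by linarith
          have : (n : ℝ) + 1 ≠ 0 := by linarith
          field_simp
          ring
        rw [he]
        have h5 := mea_le_log_diff (show 0 < (n : ℝ) by linarith)
        have h6 : 1 / (((n : ℝ) + 1) * Real.log n) ≤ 1 / ((n : ℝ) + 1) := by
          apply one_div_le_one_div_of_le (by linarith)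
          nlinarith
        have := mul_le_mul_of_nonneg_left (h6.trans h5) hC
        linarith) w hMw
    refine hmain.trans ?_
    have b3 : 1 / (w : ℝ) * G w ≤ C := by
      have hp : 0 ≤ 1 / (w : ℝ) := by positivity
      have := mul_le_mul_of_nonneg_left hGw.2 hp
      refine this.trans ?_
      have he : 1 / (w : ℝ) * (C * (w / Real.log w)) = C * (1 / Real.log w) := by
        have : (w : ℝ) ≠ 0 := by linarith
        field_simp
      rw [he]
      have : 1 / Real.log (w : ℝ) ≤ 1 := by
        rw [div_le_one (by linarith)]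
        exact hLw
      calc C * (1 / Real.log w) ≤ C * 1 := mul_le_mul_of_nonneg_left this hC
        _ = C := mul_one C
    have b4 : -C ≤ 1 / (M : ℝ) * G M := by
      have hp : 0 ≤ 1 / (M : ℝ) := by positivity
      have := mul_le_mul_of_nonneg_left hGM.1 hp
      refine le_trans ?_ this
      have he : 1 / (M : ℝ) * -(C * (M / Real.log M)) = -(C * (1 / Real.log M)) := by
        have : (M : ℝ) ≠ 0 := by linarith
        field_simp
      rw [he, neg_le_neg_iff]
      have : 1 / Real.log (M : ℝ) ≤ 1 := by
        rw [div_le_one (by linarith)]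
        exact hLM
      calc C * (1 / Real.log M) ≤ C * 1 := mul_le_mul_of_nonneg_left this hC
        _ = C := mul_one C
    have b5 : 0 ≤ C * Real.log M := by positivity
    have b6 : C ≤ C * Real.log w := by
      calc C = C * 1 := (mul_one C).symm
        _ ≤ C * Real.log w := mul_le_mul_of_nonneg_left hLw hC
    have b7 : 0 ≤ C * Real.log w := by positivity
    nlinarith

end Pool.Agent.helper6.ME
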