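import Pool.Agent.helper6.ME.A

set_option autoImplicit false

/-!
# ME-B: lower bound for the sieve sum, uniform in `l`
-/

open Finset Pool.Agent.helper20.MPN

namespace Pool.Agent.helper6.ME

theorem B_card {l M p : ℕ} (hl : l.Prime) (hp : p.Prime) :
    (RM l M p).card = if p % l = 1 ∧ M < p then l else 1 := by
  unfold RM
  split_ifs with h
  · rw [Finset.card_insert_of_notMem (G_zero_notMem hl.pos hp), C_card_roots hl hp h.1]
    have := hl.pos
    omega
  · rfl

/-- elementary facts on `RM` (as `G_card_RR`, `G_card_pos`, `G_card_lt`, `G_RR_sub`) -/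
theorem RM_pos {l M p : ℕ} (hl : l.Prime) (hp : p.Prime) : 1 ≤ (RM l M p).card := by
  rw [B_card hl hp]
  have := hl.pos
  split_ifs <;> omega

theorem B_card_lt {l M p : ℕ} (hl : l.Prime) (hp : p.Prime) : (RM l M p).card + 1 ≤ p := by
  rw [B_card hl hp]
  split_ifs with h
  · have h1 := Nat.div_add_mod p l
    rw [h.1] at h1
    have h2 : 0 < p / l := by
      rcases Nat.eq_zero_or_pos (p / l) with h3 | h3
      · rw [h3] at h1
        have := hp.one_lt
        omega
      · exact h3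
    have h3 : l * 1 ≤ l * (p / l) := Nat.mul_le_mul_left _ h2
    omega
  · exact hp.two_le

theorem RM_lt {l M p : ℕ} (hl : l.Prime) (hp : p.Prime) (hp3 : 3 ≤ p) : (RM l M p).card < p :=
  have _ := hp3
  B_card_lt hl hp

theorem RM_sub {l M p : ℕ} (hp : p.Prime) : RM l M p ⊆ range p := by
  unfold RM
  split_ifs
  · intro x hx
    rcases Finset.mem_insert.1 hx with rfl | hx
    · exact Finset.mem_range.2 hp.pos
    · unfold roots at hx
      exact (Finset.mem_filter.1 hx).1
  · intro x hx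
    rw [Finset.mem_singleton.1 hx]
    exact Finset.mem_range.2 hp.pos

theorem B_mem_PA {l M w p : ℕ} : p ∈ PA l M w ↔ (M < p ∧ p ≤ w) ∧ p.Prime ∧ p % l = 1 := by
  unfold PA
  rw [Finset.mem_filter, Finset.mem_Ioc]

/-- the weight -/
noncomputable def Bh (l M p : ℕ) : ℝ := ((RM l M p).card : ℝ) / ((p : ℝ) - (RM l M p).card)

theorem B_sub_pos {l M p : ℕ} (hl : l.Prime) (hp : p.Prime) :
    (1 : ℝ) ≤ (p : ℝ) - (RM l M p).card := by
  have := B_card_lt (M := M) hl hp
  have h : ((RM l M p).card : ℝ) + 1 ≤ p := by exact_mod_cast this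
  linarith

theorem B_h_nonneg {l M p : ℕ} (hl : l.Prime) (hp : p.Prime) : 0 ≤ Bh l M p :=
  div_nonneg (Nat.cast_nonneg _) (by linarith [B_sub_pos (M := M) hl hp])

/-- `h p ≤ 2 / p`, and `≤ 6 (l - 1) / p` for the primes of `PA` -/
theorem B_h_le {l M p : ℕ} (hl : l.Prime) (hp : p.Prime) (hp3 : 3 ≤ p) :
    Bh l M p ≤ 2 / (p : ℝ) + (if p % l = 1 ∧ M < p then 6 * ((l : ℝ) - 1) / p else 0) := by
  have hp0 : (3 : ℝ) ≤ p := by exact_mod_cast hp3
  unfold Bh
  rw [B_card hl hp]
  split_ifs with h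
  · have hlr : (2 : ℝ) ≤ l := by exact_mod_cast hl.two_le
    have h3 : (l : ℝ) / ((p : ℝ) - l) ≤ 6 * ((l : ℝ) - 1) / p := by
      rcases hl.eq_two_or_odd with h2 | hodd
      · subst h2
        rw [div_le_div_iff₀ (by push_cast; linarith) (by linarith)]
        push_cast
        nlinarith
      · have h4 : 2 * l + 1 ≤ p := by
          have h1 := Nat.div_add_mod p l
          rw [h.1] at h1
          generalize p / l = q at h1
          have h2 : 2 ≤ q := by
            by_contra hlt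
            have h5 : q = 0 ∨ q = 1 := by omega
            rcases h5 with h5 | h5
            · rw [h5] at h1
              omega
            · rw [h5] at h1
              have h6 := hp.eq_two_or_odd
              omega
          have h3 : l * 2 ≤ l * q := Nat.mul_le_mul_left _ h2
          omega
        have h5 : (2 : ℝ) * l + 1 ≤ p := by exact_mod_cast h4
        have h6 : (3 : ℝ) ≤ l := by
          have h7 : 3 ≤ l := by
            have := hl.two_le
            omega
          exact_mod_cast h7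
        rw [div_le_div_iff₀ (by linarith) (by linarith)]
        nlinarith
    have h4 : 0 ≤ 2 / (p : ℝ) := by positivity
    linarith
  · rw [Nat.cast_one, add_zero, div_le_div_iff₀ (by linarith) (by linarith)]
    linarith

theorem B_one_add {l M p : ℕ} (hl : l.Prime) (hp : p.Prime) :
    Real.exp (((RM l M p).card : ℝ) / p) ≤ 1 + Bh l M p := by
  have h2 := B_sub_pos (M := M) hl hp
  have hp0 : (0 : ℝ) < p := by exact_mod_cast hp.pos
  unfold Bh
  set r : ℝ := ((RM l M p).card : ℝ)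
  have h3 : 1 - r / p ≤ Real.exp (-(r / p)) := Real.one_sub_le_exp_neg _
  have h4 : 0 < 1 - r / p := by
    rw [sub_pos, div_lt_one hp0]
    linarith
  have h5 : 1 + r / (p - r) = (1 - r / p)⁻¹ := by
    have : (p : ℝ) - r ≠ 0 := by linarith
    field_simp
    ring
  rw [h5, ← neg_neg (r / p), Real.exp_neg]
  rw [neg_neg] at *
  exact inv_anti₀ h4 h3

theorem B_filter {l M w : ℕ} (hM : 3 ≤ M) :
    (PP w).filter (fun p => p % l = 1 ∧ M < p) = PA l M w := by
  ext p
  rw [Finset.mem_filter, G_mem_PP, B_mem_PA]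
  constructor
  · rintro ⟨⟨h1, h2, h3⟩, h4, h5⟩
    exact ⟨⟨h5, h1⟩, h2, h4⟩
  · rintro ⟨⟨h1, h2⟩, h3, h4⟩
    exact ⟨⟨h2, h3, by omega⟩, h4, h1⟩

theorem B_sum_log_le {l M w : ℕ} {C : ℝ} (hl : l.Prime) (hM : 3 ≤ M) (hw : 2 ≤ w)
    (hA : ((l : ℝ) - 1) * ∑ p ∈ PA l M w, Real.log p / p ≤ C * Real.log w) :
    ∑ p ∈ PP w, Bh l M p * Real.log p ≤ (6 + 6 * C) * Real.log w := by
  have h1 : ∑ p ∈ PP w, Bh l M p * Real.log p ≤
      2 * ∑ p ∈ PP w, (Real.log p / p) +
        6 * (((l : ℝ) - 1) * ∑ p ∈ PA l M w, Real.log p / p) := by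
    rw [← B_filter hM, Finset.sum_filter, Finset.mul_sum, Finset.mul_sum, Finset.mul_sum,
      ← Finset.sum_add_distrib]
    apply Finset.sum_le_sum
    intro p hp
    rw [G_mem_PP] at hp
    have h2 := B_h_le (M := M) hl hp.2.1 hp.2.2
    have h3 : 0 ≤ Real.log p := Real.log_natCast_nonneg p
    refine (mul_le_mul_of_nonneg_right h2 h3).trans (le_of_eq ?_)
    split_ifs
    · ring
    · ring
  have h2 : ∑ p ∈ PP w, (Real.log p / p) ≤ Real.log w + Real.log 4 := by
    refine le_trans ?_ (Pool.Agent.helper91.Mertens.upper (N := w) (by omega))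
    unfold Pool.Agent.helper91.Mertens.M
    apply Finset.sum_le_sum_of_subset_of_nonneg
    · intro p hp
      rw [G_mem_PP] at hp
      exact Nat.mem_primesLE.2 ⟨hp.1, hp.2.1⟩
    · intro p _ _
      exact div_nonneg (Real.log_natCast_nonneg p) (Nat.cast_nonneg p)
  have h3 : Real.log 4 ≤ 2 * Real.log w := by
    have : Real.log 4 = 2 * Real.log 2 := by
      rw [show (4 : ℝ) = 2 ^ 2 by norm_num, Real.log_pow]
      norm_num
    rw [this]
    have : Real.log 2 ≤ Real.log w := Real.log_le_log (by norm_num) (by exact_mod_cast hw)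
    linarith
  linarith

theorem B_sum_lower {l M w : ℕ} {C C2 : ℝ} (hl : l.Prime) (hM : 3 ≤ M)
    (h4 : Real.log (Real.log w) - C2 ≤ ∑ p ∈ (range (w + 1)).filter Nat.Prime, (1 : ℝ) / p)
    (hA : Real.log (Real.log w) - Real.log (Real.log M) - C ≤
      ((l : ℝ) - 1) * ∑ p ∈ PA l M w, (1 : ℝ) / p) :
    2 * Real.log (Real.log w) - Real.log (Real.log M) - (C + C2 + 1 / 2) ≤
      ∑ p ∈ PP w, (((RM l M p).card : ℝ) / p) := by
  have h5 : ∑ p ∈ (range (w + 1)).filter Nat.Prime, (1 : ℝ) / p ≤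
      ∑ p ∈ PP w, (1 : ℝ) / p + 1 / 2 := by
    have h6 : (range (w + 1)).filter Nat.Prime ⊆ insert 2 (PP w) := by
      intro p hp
      rw [Finset.mem_filter, Finset.mem_range] at hp
      rw [Finset.mem_insert, G_mem_PP]
      have := hp.2.two_le
      rcases this.eq_or_lt with h | h
      · exact Or.inl h.symm
      · exact Or.inr ⟨by omega, hp.2, h⟩
    calc ∑ p ∈ (range (w + 1)).filter Nat.Prime, (1 : ℝ) / p
        ≤ ∑ p ∈ insert 2 (PP w), (1 : ℝ) / p :=
          Finset.sum_le_sum_of_subset_of_nonneg h6 fun p _ _ => by positivity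
      _ = ∑ p ∈ PP w, (1 : ℝ) / p + 1 / 2 := by
          rw [Finset.sum_insert]
          · push_cast
            ring
          · rw [G_mem_PP]
            omega
  have h7 : ∑ p ∈ PP w, (((RM l M p).card : ℝ) / p) =
      ∑ p ∈ PP w, (1 : ℝ) / p + ((l : ℝ) - 1) * ∑ p ∈ PA l M w, (1 : ℝ) / p := by
    rw [← B_filter hM, Finset.sum_filter, Finset.mul_sum, ← Finset.sum_add_distrib]
    apply Finset.sum_congr rfl
    intro p hp
    rw [G_mem_PP] at hp
    rw [B_card hl hp.2.1]
    split_ifs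
    · ring
    · push_cast
      ring
  rw [h7]
  linarith

/-- lower bound for the sieve sum, uniform in `l`. -/
theorem B_lower (N : ℕ) (hN : 1 ≤ N) : ∃ (c : ℝ) (s M0 : ℕ), 0 < c ∧ 0 < s ∧ 3 ≤ M0 ∧
    ∀ l : ℕ, l.Prime → ∀ M w : ℕ, M0 ≤ M → M ≤ w → (l : ℝ) ≤ Real.log M ^ N →
      c * (Real.log w ^ 2 / Real.log M) ≤ gG (PP w) (RM l M) (w ^ s) := by
  obtain ⟨C, M0, hC, hM0, hA⟩ := A_sum N hN
  obtain ⟨C2, hC2⟩ := sum_inv_lower
  obtain ⟨s, hs⟩ := exists_nat_ge (2 * (6 + 6 * C) + 1)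
  have hspos : 0 < s := by
    have h : (0 : ℝ) < s := by linarith
    exact_mod_cast h
  refine ⟨1 / 2 * Real.exp (-(C + C2 + 1 / 2)), s, M0, by positivity, hspos, hM0,
    fun l hl M w hM hMw hlM => ?_⟩
  have hM3 : 3 ≤ M := hM0.trans hM
  have hw3 : 3 ≤ w := hM3.trans hMw
  obtain ⟨hA1, hA2⟩ := hA l hl M w hM hMw hlM
  have hlogM : 0 < Real.log M := L_log_pos (by omega)
  have hlogw : 0 < Real.log w := L_log_pos (by omega)
  have h2 := rankin (PP w) (fun p hp => (G_mem_PP.1 hp).2.1) (Bh l M)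
    (fun p hp => B_h_nonneg hl (G_mem_PP.1 hp).2.1) w (by omega)
    (fun p hp => (G_mem_PP.1 hp).1) (6 + 6 * C) (B_sum_log_le hl hM3 (by omega) hA2)
    s hs
  have h3 : Real.exp (∑ p ∈ PP w, (((RM l M p).card : ℝ) / p)) ≤ ∏ p ∈ PP w, (1 + Bh l M p) := by
    rw [Real.exp_sum]
    exact Finset.prod_le_prod (fun p _ => (Real.exp_pos _).le)
      fun p hp => B_one_add hl (G_mem_PP.1 hp).2.1
  have h4 : Real.exp (-(C + C2 + 1 / 2)) * (Real.log w ^ 2 / Real.log M) ≤
      Real.exp (∑ p ∈ PP w, (((RM l M p).card : ℝ) / p)) := by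
    have h5 : Real.log w ^ 2 / Real.log M =
        Real.exp (2 * Real.log (Real.log w) - Real.log (Real.log M)) := by
      rw [Real.exp_sub, Real.exp_log hlogM]
      congr 1
      rw [two_mul, Real.exp_add, Real.exp_log hlogw, sq]
    rw [h5, ← Real.exp_add]
    apply Real.exp_le_exp.2
    have h6 := B_sum_lower hl hM3 (hC2 w hw3) hA1
    linarith
  have h5 : gG (PP w) (RM l M) (w ^ s) =
      ∑ S ∈ (PP w).powerset.filter (fun S => ∏ p ∈ S, p ≤ w ^ s), ∏ p ∈ S, Bh l M p := rfl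
  rw [h5]
  calc 1 / 2 * Real.exp (-(C + C2 + 1 / 2)) * (Real.log w ^ 2 / Real.log M)
      = 1 / 2 * (Real.exp (-(C + C2 + 1 / 2)) * (Real.log w ^ 2 / Real.log M)) := by ring
    _ ≤ 1 / 2 * ∏ p ∈ PP w, (1 + Bh l M p) :=
        mul_le_mul_of_nonneg_left (h4.trans h3) (by norm_num)
    _ ≤ _ := h2

end Pool.Agent.helper6.ME
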