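import Pool.Agent.helper6.ME.B

set_option autoImplicit false

open Finset Pool.Agent.helper20.MPN

namespace Pool.Agent.helper6.ME

/-- Chebyshev bound in dyadic intervals: `(2^j)^count ≤ primorial (2^(j+1)) ≤ 4^(2^(j+1))`
(`primorial_le_four_pow`) -/
theorem card_primes_dyadic (j : ℕ) (hj : 1 ≤ j) :
    (((Ioc (2 ^ j) (2 ^ (j + 1))).filter Nat.Prime).card : ℝ) ≤ 4 * (2 ^ j / (j : ℝ)) := by
  set A : Finset ℕ := (Ioc (2 ^ j) (2 ^ (j + 1))).filter Nat.Prime with hA
  have h1 : (2 ^ j) ^ A.card ≤ ∏ p ∈ A, p := by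
    rw [← Finset.prod_const]
    apply Finset.prod_le_prod'
    intro p hp
    rw [hA, Finset.mem_filter, Finset.mem_Ioc] at hp
    exact hp.1.1.le
  have h2 : ∏ p ∈ A, p ≤ primorial (2 ^ (j + 1)) := by
    unfold primorial
    apply Finset.prod_le_prod_of_subset_of_one_le'
    · intro p hp
      rw [hA, Finset.mem_filter, Finset.mem_Ioc] at hp
      rw [Finset.mem_filter, Finset.mem_range]
      exact ⟨Nat.lt_succ_of_le hp.1.2, hp.2⟩
    · intro p hp _
      rw [Finset.mem_filter] at hp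
      exact hp.2.one_lt.le
  have h3 : primorial (2 ^ (j + 1)) ≤ 4 ^ (2 ^ (j + 1)) := primorial_le_four_pow _
  have h4 : 2 ^ (j * A.card) ≤ 2 ^ (4 * 2 ^ j) := by
    calc 2 ^ (j * A.card) = (2 ^ j) ^ A.card := by rw [pow_mul]
      _ ≤ 4 ^ (2 ^ (j + 1)) := h1.trans (h2.trans h3)
      _ = (2 ^ 2) ^ (2 ^ (j + 1)) := by norm_num
      _ = 2 ^ (4 * 2 ^ j) := by
          rw [← pow_mul]
          congr 1
          rw [pow_succ]
          ring
  have h5 : j * A.card ≤ 4 * 2 ^ j := (Nat.pow_le_pow_iff_right (by norm_num)).1 h4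
  have h6 : (j : ℝ) * A.card ≤ 4 * 2 ^ j := by exact_mod_cast h5
  have hj0 : (0 : ℝ) < j := by exact_mod_cast hj
  rw [← mul_div_assoc, le_div_iff₀ hj0]
  linarith

/-- the logarithm of the threshold -/
theorem ME_C_thr (M0 : ℕ) (L : ℝ) (hL : 1 ≤ L) :
    ∃ M : ℕ, M0 ≤ M ∧ L ≤ Real.log M ∧ Real.log M ≤ (Real.log M0 + 2) * L := by
  have hlogM0 : 0 ≤ Real.log M0 := Real.log_natCast_nonneg M0
  have hexp : 0 < Real.exp L := Real.exp_pos L
  have hceil : Real.exp L ≤ (⌈Real.exp L⌉₊ : ℝ) := Nat.le_ceil _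
  have hceil2 : (⌈Real.exp L⌉₊ : ℝ) < Real.exp L + 1 := Nat.ceil_lt_add_one hexp.le
  have hone : (1 : ℝ) ≤ Real.exp L := Real.one_le_exp (by linarith)
  have hlog1 : Real.log (⌈Real.exp L⌉₊ : ℝ) ≤ L + 1 := by
    have h1 : (⌈Real.exp L⌉₊ : ℝ) ≤ Real.exp (L + 1) := by
      rw [Real.exp_add]
      have h2 : (2 : ℝ) ≤ Real.exp 1 := by
        have := Real.add_one_le_exp (1 : ℝ)
        linarith
      nlinarith
    have h3 := Real.log_le_log (by linarith : (0 : ℝ) < (⌈Real.exp L⌉₊ : ℝ)) h1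
    rwa [Real.log_exp] at h3
  have hlog0 : L ≤ Real.log (⌈Real.exp L⌉₊ : ℝ) := by
    have h3 := Real.log_le_log hexp hceil
    rwa [Real.log_exp] at h3
  rcases Nat.le_total M0 ⌈Real.exp L⌉₊ with h | h
  · refine ⟨⌈Real.exp L⌉₊, h, hlog0, ?_⟩
    nlinarith
  · refine ⟨M0, le_refl _, ?_, ?_⟩
    · refine hlog0.trans (Real.log_le_log (by linarith) ?_)
      exact_mod_cast h
    · nlinarith

/-- the sieve inequality for the dyadic set -/
theorem ME_C_sieve {l : ℕ} (hl : l.Prime) (s M j : ℕ) (hs : 0 < s) :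
    ((Sd l (8 * s) j).card : ℝ) * gG (PP (2 ^ (j / (8 * s)))) (RM l M) ((2 ^ (j / (8 * s))) ^ s) ≤
      (2 ^ (j + 1) + 1) +
        2 ^ (j / 2) * gG (PP (2 ^ (j / (8 * s)))) (RM l M) ((2 ^ (j / (8 * s))) ^ s) := by
  set t : ℕ := 8 * s with ht
  have htpos : 0 < t := by omega
  set A : Finset ℕ := Sd l t j with hA
  set w : ℕ := 2 ^ (j / t) with hw
  have hwj : w ≤ 2 ^ j := Nat.pow_le_pow_right (by norm_num) (Nat.div_le_self _ _)
  have hsieve := gsieve (PP w) (fun p hp => (G_mem_PP.1 hp).2.1) (RM l M)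
    (fun p hp => RM_sub (G_mem_PP.1 hp).2.1)
    (fun p hp => Finset.card_pos.1 (RM_pos hl (G_mem_PP.1 hp).2.1))
    (fun p hp => RM_lt hl (G_mem_PP.1 hp).2.1 (G_mem_PP.1 hp).2.2) (w ^ s) (2 ^ (j + 1) + 1) A
    (by
      intro q hq
      rw [hA, G_mem_Sd] at hq
      rw [Finset.mem_range, Nat.lt_succ_iff]
      exact hq.1.2)
    (by
      intro q hq p hp
      rw [hA, G_mem_Sd] at hq
      rw [G_mem_PP] at hp
      have h0 : q % p ≠ 0 := by
        intro h
        have h1 : p ∣ q := Nat.dvd_of_mod_eq_zero h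
        have h2 : p = q := (Nat.prime_dvd_prime_iff_eq hp.2.1 hq.2.1).1 h1
        have h3 := hq.1.1
        have h4 := hp.1
        omega
      have h5 : q % p ∉ roots l p := by
        intro h
        unfold roots at h
        rw [Finset.mem_filter, C_dvd_mod] at h
        exact hq.2.2 p hp.2.1 hp.1 h.2
      unfold RM
      split_ifs
      · rw [Finset.mem_insert]
        rintro (h | h)
        · exact h0 h
        · exact h5 h
      · rw [Finset.mem_singleton]
        exact h0)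
  have hg0 : 0 ≤ gG (PP w) (RM l M) (w ^ s) := by
    unfold gG
    apply Finset.sum_nonneg
    intro S hS
    rw [Finset.mem_filter, Finset.mem_powerset] at hS
    apply Finset.prod_nonneg
    intro p hp
    have hpp := G_mem_PP.1 (hS.1 hp)
    apply div_nonneg (Nat.cast_nonneg _)
    have h1 : ((RM l M p).card : ℝ) ≤ p := by
      exact_mod_cast (RM_lt (M := M) hl hpp.2.1 hpp.2.2).le
    linarith
  set g : ℝ := gG (PP w) (RM l M) (w ^ s) with hg
  have hQ4 : (((w ^ s : ℕ) : ℝ)) ^ 4 ≤ 2 ^ (j / 2) := by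
    have h1 : (w ^ s) ^ 4 ≤ 2 ^ (j / 2) := by
      rw [hw, ← pow_mul, ← pow_mul]
      apply Nat.pow_le_pow_right (by norm_num)
      rw [Nat.le_div_iff_mul_le (by norm_num)]
      calc j / t * (s * 4) * 2 = j / t * t := by rw [ht]; ring
        _ ≤ j := Nat.div_mul_le_self _ _
    exact_mod_cast h1
  refine hsieve.trans ?_
  have := mul_le_mul_of_nonneg_right hQ4 hg0
  push_cast at this ⊢
  linarith

/-- the number of primes in a dyadic interval for which `cyc l q` has no small prime factor,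
uniformly in `l`.

PROOF. As `sieve_dyadic` in `Pool/Agent/helper20/MPN/G.lean`, `t = 8 s`, `w = 2 ^ (j / t)`,
`gsieve (PP w) (RM l M) ...` with `M = max M0 ⌈exp L⌉₊`, so `l ≤ L^N ≤ (log M)^N` and
`log M ≤ L + 1 + log M0`. If `M ≤ w` (and `j ≥ 2 t`), `B_lower` gives
`card ≤ (2^(j+1) + 1) / gG + 2^(j/2) ≤ K L 2^j / j²`. Otherwise `j ≤ K' L` and `card_primes_dyadic`
(trivially `Sd l t j ⊆` the primes of the interval) gives `card ≤ 4 2^j/j ≤ 4 K' L 2^j / j²`. -/
theorem C_dyadic (N : ℕ) (hN : 1 ≤ N) : ∃ (K : ℝ) (t : ℕ), 0 ≤ K ∧ 8 ≤ t ∧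
    ∀ l : ℕ, l.Prime → ∀ L : ℝ, 1 ≤ L → (l : ℝ) ≤ L ^ N →
      ∀ j : ℕ, 1 ≤ j → ((Sd l t j).card : ℝ) ≤ K * L * (2 ^ j / (j : ℝ) ^ 2) := by
  obtain ⟨c, s, M0, hc, hs, -, hB⟩ := B_lower N hN
  set t : ℕ := 8 * s with ht
  have htpos : 0 < t := by omega
  have ht0 : (0 : ℝ) < t := by exact_mod_cast htpos
  have hlog2 : 0 < Real.log 2 := Real.log_pos (by norm_num)
  set a : ℝ := Real.log 2 / (2 * t) with ha
  have ha0 : 0 < a := by positivity
  have hlogM0 : 0 ≤ Real.log M0 := Real.log_natCast_nonneg M0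
  set K1 : ℝ := Real.log M0 + 2 with hK1
  have hK10 : 0 < K1 := by linarith
  refine ⟨3 * K1 / (c * a ^ 2) + 9 + (2 * t : ℝ) ^ 2 + 4 * K1 / a, t, by positivity, by omega, ?_⟩
  intro l hl L hL hlL j hj
  have hL0 : 0 < L := by linarith
  obtain ⟨M, hM0M, hLM, hML⟩ := ME_C_thr M0 L hL
  rw [← hK1] at hML
  have hlM : (l : ℝ) ≤ Real.log M ^ N := hlL.trans (pow_le_pow_left₀ hL0.le hLM N)
  set A : Finset ℕ := Sd l t j with hA
  have hj0 : (1 : ℝ) ≤ j := by exact_mod_cast hj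
  have hjp : 0 < (j : ℝ) ^ 2 := by positivity
  have h2j : (0 : ℝ) < 2 ^ j := by positivity
  set Y : ℝ := 2 ^ j / (j : ℝ) ^ 2 with hY
  have hY0 : 0 < Y := by positivity
  have hT1 : 0 ≤ 3 * K1 / (c * a ^ 2) * L * Y := by positivity
  have hT2 : 0 ≤ 9 * L * Y := by positivity
  have hT3 : 0 ≤ (2 * t : ℝ) ^ 2 * L * Y := by positivity
  have hT4 : 0 ≤ 4 * K1 / a * L * Y := by positivity
  have hsplit : (3 * K1 / (c * a ^ 2) + 9 + (2 * t : ℝ) ^ 2 + 4 * K1 / a) * L * Y =
      3 * K1 / (c * a ^ 2) * L * Y + 9 * L * Y + (2 * t : ℝ) ^ 2 * L * Y + 4 * K1 / a * L * Y := by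
    ring
  rw [hsplit]
  rcases Nat.lt_or_ge j (2 * t) with hjt | hjt
  · -- trivial bound
    have h1 : (A.card : ℝ) ≤ 2 ^ j := by
      have h2 : A.card ≤ 2 ^ j := by
        have h5 : A ⊆ Ioc (2 ^ j) (2 ^ (j + 1)) := fun q hq => by
          rw [hA, G_mem_Sd] at hq
          exact Finset.mem_Ioc.2 hq.1
        refine (Finset.card_le_card h5).trans ?_
        rw [Nat.card_Ioc, pow_succ]
        omega
      exact_mod_cast h2
    have h3 : (j : ℝ) ^ 2 ≤ (2 * t : ℝ) ^ 2 := by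
      have : (j : ℝ) ≤ 2 * t := by exact_mod_cast hjt.le
      exact pow_le_pow_left₀ (by linarith) this 2
    have h4 : (2 : ℝ) ^ j ≤ (2 * t : ℝ) ^ 2 * L * Y := by
      have h5 : (2 : ℝ) ^ j = (j : ℝ) ^ 2 * Y := by
        rw [hY]
        field_simp
      have h6 : (2 * t : ℝ) ^ 2 * 1 ≤ (2 * t : ℝ) ^ 2 * L :=
        mul_le_mul_of_nonneg_left hL (by positivity)
      calc (2 : ℝ) ^ j = (j : ℝ) ^ 2 * Y := h5
        _ ≤ (2 * t : ℝ) ^ 2 * L * Y := mul_le_mul_of_nonneg_right (by linarith) hY0.le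
    linarith
  · set w : ℕ := 2 ^ (j / t) with hw
    have hdiv : (j : ℝ) / (2 * t) ≤ ((j / t : ℕ) : ℝ) := by
      rw [div_le_iff₀ (by positivity)]
      have hjt2 : 2 ≤ j / t := (Nat.le_div_iff_mul_le htpos).2 hjt
      have h1 : j < t * (j / t + 1) := Nat.lt_mul_div_succ j htpos
      have h2 : j ≤ (j / t) * (2 * t) := by
        have h3 : t * (j / t + 1) ≤ t * (j / t + j / t) := Nat.mul_le_mul_left _ (by omega)
        have h4 : t * (j / t + j / t) = (j / t) * (2 * t) := by ring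
        omega
      exact_mod_cast h2
    have hlogw : a * j ≤ Real.log w := by
      rw [hw]
      push_cast
      rw [Real.log_pow, ha]
      calc Real.log 2 / (2 * t) * j = (j / (2 * t)) * Real.log 2 := by ring
        _ ≤ _ := mul_le_mul_of_nonneg_right hdiv hlog2.le
    rcases Nat.lt_or_ge w M with hwM | hwM
    · -- small `j`: Chebyshev
      have h1 : Real.log w ≤ Real.log M := by
        apply Real.log_le_log
        · rw [hw]
          positivity
        · exact_mod_cast hwM.le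
      have h2 : a * j ≤ K1 * L := hlogw.trans (h1.trans hML)
      have h3 : (j : ℝ) ≤ K1 / a * L := by
        rw [div_mul_eq_mul_div, le_div_iff₀ ha0]
        linarith
      have h4 : (A.card : ℝ) ≤ 4 * (2 ^ j / (j : ℝ)) := by
        refine le_trans ?_ (card_primes_dyadic j hj)
        have h5 : A ⊆ (Ioc (2 ^ j) (2 ^ (j + 1))).filter Nat.Prime := fun q hq => by
          rw [hA, G_mem_Sd] at hq
          exact Finset.mem_filter.2 ⟨Finset.mem_Ioc.2 hq.1, hq.2.1⟩
        exact_mod_cast Finset.card_le_card h5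
      have h5 : (2 : ℝ) ^ j / (j : ℝ) = j * Y := by
        rw [hY]
        field_simp
      have h6 : 4 * ((2 : ℝ) ^ j / (j : ℝ)) ≤ 4 * K1 / a * L * Y := by
        rw [h5]
        calc 4 * ((j : ℝ) * Y) ≤ 4 * ((K1 / a * L) * Y) := by
              apply mul_le_mul_of_nonneg_left _ (by norm_num)
              exact mul_le_mul_of_nonneg_right h3 hY0.le
          _ = _ := by ring
      linarith
    · -- the sieve
      have hGl := hB l hl M w hM0M hwM hlM
      have hsv := ME_C_sieve hl s M j hs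
      rw [← ht, ← hw, ← hA] at hsv
      set g : ℝ := gG (PP w) (RM l M) (w ^ s) with hg
      have hlogM : 0 < Real.log M := by linarith
      have hgl : c * ((a * j) ^ 2 / (K1 * L)) ≤ g := by
        refine le_trans ?_ hGl
        apply mul_le_mul_of_nonneg_left _ hc.le
        apply div_le_div₀ (by positivity) _ hlogM hML
        exact pow_le_pow_left₀ (by positivity) hlogw 2
      have hg0 : 0 < g := lt_of_lt_of_le (by positivity) hgl
      have hA1 : (A.card : ℝ) ≤ (2 ^ (j + 1) + 1) / g + 2 ^ (j / 2) := by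
        rw [← sub_le_iff_le_add, le_div_iff₀ hg0]
        linarith
      have hA2 : (2 ^ (j + 1) + 1 : ℝ) / g ≤ 3 * K1 / (c * a ^ 2) * L * Y := by
        have h1 : (2 ^ (j + 1) + 1 : ℝ) ≤ 3 * 2 ^ j := by
          have : (1 : ℝ) ≤ 2 ^ j := one_le_pow₀ (by norm_num)
          rw [pow_succ]
          linarith
        calc (2 ^ (j + 1) + 1 : ℝ) / g ≤ (3 * 2 ^ j) / (c * ((a * j) ^ 2 / (K1 * L))) :=
              div_le_div₀ (by positivity) h1 (by positivity) hgl
          _ = _ := by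
              rw [hY]
              field_simp
      have hA3 : (2 : ℝ) ^ (j / 2) ≤ 9 * L * Y := by
        have h1 : ((j ^ 2 * 2 ^ (j / 2) : ℕ) : ℝ) ≤ ((9 * 2 ^ j : ℕ) : ℝ) := by
          exact_mod_cast G_pow_half j
        push_cast at h1
        have h2 : (2 : ℝ) ^ (j / 2) ≤ 9 * Y := by
          rw [hY, ← mul_div_assoc, le_div_iff₀ hjp]
          linarith
        have h3 : 9 * Y * 1 ≤ 9 * Y * L := mul_le_mul_of_nonneg_left hL (by positivity)
        linarith
      linarith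

end Pool.Agent.helper6.ME
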