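import Pool.Agent.helper6.ME.C

set_option autoImplicit false

open Finset Pool.Agent.helper20.MPN

namespace Pool.Agent.helper6.ME

open Classical in
/-- every prime factor of `n` in the dyadic interval lies in a `Pl n l`, `l ≤ 1 + maxExp n` -/
theorem D_sub (n j t : ℕ) : Qj n j ⊆
    ((range (maxExp n + 2)).filter Nat.Prime).biUnion fun l => Sd l t j ∪
      ((Pl n l).filter fun p => ∃ Q : ℕ, Q.Prime ∧ Q ≤ 2 ^ (j / t) ∧ Q ∣ cyc l p) := by
  intro p hp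
  unfold Qj at hp
  rw [Finset.mem_filter] at hp
  obtain ⟨hp1, hp2⟩ := hp
  have hpp := Nat.prime_of_mem_primeFactors hp1
  have hn0 : n ≠ 0 := (Nat.mem_primeFactors.1 hp1).2.2
  have he : 1 ≤ n.factorization p :=
    hpp.factorization_pos_of_dvd hn0 (Nat.dvd_of_mem_primeFactors hp1)
  obtain ⟨l, hl, hld⟩ := Nat.exists_prime_and_dvd (n := n.factorization p + 1) (by omega)
  have h2 := Nat.le_of_dvd (by omega) hld
  have h3 : n.factorization p ≤ maxExp n := by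
    unfold maxExp
    exact Finset.le_sup (f := fun p => n.factorization p) hp1
  rw [Finset.mem_biUnion]
  refine ⟨l, Finset.mem_filter.2 ⟨Finset.mem_range.2 (by omega), hl⟩, ?_⟩
  have hPl : p ∈ Pl n l := by
    unfold Pl
    exact Finset.mem_filter.2 ⟨hp1, hld⟩
  rw [Finset.mem_union]
  by_cases hb : ∃ Q : ℕ, Q.Prime ∧ Q ≤ 2 ^ (j / t) ∧ Q ∣ cyc l p
  · exact Or.inr (Finset.mem_filter.2 ⟨hPl, hb⟩)
  · left
    rw [G_mem_Sd]
    exact ⟨hp2, hpp, fun Q hQ hQ2 hQ3 => hb ⟨Q, hQ, hQ2, hQ3⟩⟩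

open Classical in
/-- the exceptional primes -/
theorem D_bad {n k l j t : ℕ} (hn : 0 < n) (hk : 0 < k) (hl : 0 < l)
    (hs : ArithmeticFunction.sigma 1 n = k * n) (ht : 8 ≤ t) :
    ((Pl n l).filter fun p => ∃ Q : ℕ, Q.Prime ∧ Q ≤ 2 ^ (j / t) ∧ Q ∣ cyc l p).card ≤
      2 ^ (j / 8) * 2 ^ mm n k := by
  have h3 := card_bad hn hk hl hs (2 ^ (j / t))
  have h4 := F_lt_pow n k
  have h5 : j / t ≤ j / 8 := Nat.div_le_div_left ht (by norm_num)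
  have h6 : 2 ^ (j / t) ≤ 2 ^ (j / 8) := Nat.pow_le_pow_right (by norm_num) h5
  have h8 : 1 ≤ 2 ^ (j / 8) := Nat.one_le_two_pow
  have h9 : Nat.log 2 k + 2 ^ (j / t) * maxExp n ≤ 2 ^ (j / 8) * (maxExp n + Nat.log 2 k + 2) := by
    have h10 : 2 ^ (j / t) * maxExp n ≤ 2 ^ (j / 8) * maxExp n := Nat.mul_le_mul_right _ h6
    have h11 : Nat.log 2 k ≤ 2 ^ (j / 8) * Nat.log 2 k := Nat.le_mul_of_pos_left _ h8
    nlinarith
  calc _ ≤ Nat.log 2 k + 2 ^ (j / t) * maxExp n := by convert h3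
    _ ≤ 2 ^ (j / 8) * (maxExp n + Nat.log 2 k + 2) := h9
    _ ≤ 2 ^ (j / 8) * 2 ^ mm n k := Nat.mul_le_mul_left _ h4.le

/-- the number of prime factors of a multiply perfect number in a dyadic interval. -/
theorem D_dyadic (N : ℕ) (hN : 1 ≤ N) : ∃ K : ℝ, 0 ≤ K ∧ ∀ n k : ℕ, 0 < n → 0 < k →
    ArithmeticFunction.sigma 1 n = k * n → ∀ j : ℕ, 4 * mm n k ≤ j →
      ((Qj n j).card : ℝ) ≤
        K * (1 + (maxExp n : ℝ)) ^ (1 + 1 / (N : ℝ)) * (2 ^ j / (j : ℝ) ^ 2) := by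
  classical
  obtain ⟨K, t, hK, ht, h⟩ := C_dyadic N hN
  refine ⟨K + 36, by linarith, fun n k hn hk hs j hj => ?_⟩
  have hmm : 1 ≤ mm n k := by
    unfold mm
    omega
  have hj1 : 1 ≤ j := by omega
  have hjp : (0 : ℝ) < (j : ℝ) ^ 2 := by positivity
  set E : ℝ := (maxExp n : ℝ) with hE
  have hE0 : 0 ≤ E := Nat.cast_nonneg _
  have hN0 : (0 : ℝ) < N := by exact_mod_cast hN
  set X : ℝ := 2 ^ j / (j : ℝ) ^ 2 with hX
  have hX0 : 0 ≤ X := by positivity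
  set I : Finset ℕ := (range (maxExp n + 2)).filter Nat.Prime with hI
  set B : ℕ := 2 ^ (j / 8) * 2 ^ mm n k with hB
  have hIcard : (I.card : ℝ) ≤ 1 + E := by
    have h1 : I ⊆ Ico 1 (maxExp n + 2) := by
      intro l hl
      rw [hI, Finset.mem_filter, Finset.mem_range] at hl
      rw [Finset.mem_Ico]
      exact ⟨hl.2.pos, hl.1⟩
    have h2 := Finset.card_le_card h1
    rw [Nat.card_Ico] at h2
    have h3 : I.card ≤ 1 + maxExp n := by omega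
    rw [hE]
    exact_mod_cast h3
  -- the bound for one `l`
  have hl1 : ∀ l ∈ I, (((Sd l t j ∪
      ((Pl n l).filter fun p => ∃ Q : ℕ, Q.Prime ∧ Q ≤ 2 ^ (j / t) ∧ Q ∣ cyc l p)).card : ℕ) : ℝ) ≤
      K * (1 + E) ^ (1 / (N : ℝ)) * X + B := by
    intro l hl
    rw [hI, Finset.mem_filter, Finset.mem_range] at hl
    obtain ⟨hlE, hlp⟩ := hl
    have hl0 : (1 : ℝ) ≤ l := by exact_mod_cast hlp.pos
    have hlE' : (l : ℝ) ≤ 1 + E := by
      have : l ≤ 1 + maxExp n := by omega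
      rw [hE]
      exact_mod_cast this
    have hL1 : (1 : ℝ) ≤ (l : ℝ) ^ (1 / (N : ℝ)) := Real.one_le_rpow hl0 (by positivity)
    have hL2 : (l : ℝ) ≤ ((l : ℝ) ^ (1 / (N : ℝ))) ^ N := by
      rw [← Real.rpow_natCast, ← Real.rpow_mul (by linarith), one_div,
        inv_mul_cancel₀ hN0.ne', Real.rpow_one]
    have h1 := h l hlp _ hL1 hL2 j hj1
    have h2 : (l : ℝ) ^ (1 / (N : ℝ)) ≤ (1 + E) ^ (1 / (N : ℝ)) :=
      Real.rpow_le_rpow (by linarith) hlE' (by positivity)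
    have h3 : K * (l : ℝ) ^ (1 / (N : ℝ)) * X ≤ K * (1 + E) ^ (1 / (N : ℝ)) * X :=
      mul_le_mul_of_nonneg_right (mul_le_mul_of_nonneg_left h2 hK) hX0
    have h4 : (((Pl n l).filter fun p => ∃ Q : ℕ, Q.Prime ∧ Q ≤ 2 ^ (j / t) ∧
        Q ∣ cyc l p).card : ℝ) ≤ (B : ℝ) := by
      exact_mod_cast D_bad hn hk hlp.pos hs ht
    have h5 : (((Sd l t j ∪
        ((Pl n l).filter fun p => ∃ Q : ℕ, Q.Prime ∧ Q ≤ 2 ^ (j / t) ∧ Q ∣ cyc l p)).card : ℕ) : ℝ) ≤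
        (Sd l t j).card + (((Pl n l).filter fun p => ∃ Q : ℕ, Q.Prime ∧ Q ≤ 2 ^ (j / t) ∧
        Q ∣ cyc l p).card : ℝ) := by
      exact_mod_cast Finset.card_union_le _ _
    linarith
  -- the union bound
  have h1 : ((Qj n j).card : ℝ) ≤ ∑ l ∈ I, (K * (1 + E) ^ (1 / (N : ℝ)) * X + B) := by
    have h2 := (Finset.card_le_card (D_sub n j t)).trans Finset.card_biUnion_le
    have h3 : ((Qj n j).card : ℝ) ≤ ∑ l ∈ I, (((Sd l t j ∪
      ((Pl n l).filter fun p => ∃ Q : ℕ, Q.Prime ∧ Q ≤ 2 ^ (j / t) ∧ Q ∣ cyc l p)).card : ℕ) : ℝ) := by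
      exact_mod_cast h2
    exact h3.trans (Finset.sum_le_sum hl1)
  rw [Finset.sum_const, nsmul_eq_mul] at h1
  have hR0 : 0 ≤ (1 + E) ^ (1 / (N : ℝ)) := Real.rpow_nonneg (by linarith) _
  have h2 : (I.card : ℝ) * (K * (1 + E) ^ (1 / (N : ℝ)) * X + B) ≤
      (1 + E) * (K * (1 + E) ^ (1 / (N : ℝ)) * X + B) :=
    mul_le_mul_of_nonneg_right hIcard (by positivity)
  have h3 : (1 + E) * (B : ℝ) ≤ 36 * X := by
    have h4 := F_lt_pow n k
    have h5 : 1 + maxExp n ≤ 2 ^ mm n k := by omega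
    have h6 : (1 + maxExp n) * B ≤ 2 ^ (j / 8 + j / 2) := by
      calc (1 + maxExp n) * B ≤ 2 ^ mm n k * B := Nat.mul_le_mul_right _ h5
        _ = 2 ^ (j / 8 + 2 * mm n k) := by
            rw [hB, pow_add, two_mul, pow_add]
            ring
        _ ≤ 2 ^ (j / 8 + j / 2) := Nat.pow_le_pow_right (by norm_num) (by omega)
    have h7 := F_pow_quarter j
    have h8 : (j ^ 2 * ((1 + maxExp n) * B) : ℕ) ≤ 36 * 2 ^ j :=
      (Nat.mul_le_mul_left _ h6).trans h7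
    have h9 : (j : ℝ) ^ 2 * ((1 + E) * B) ≤ 36 * 2 ^ j := by
      rw [hE]
      exact_mod_cast h8
    rw [hX, ← mul_div_assoc, le_div_iff₀ hjp]
    linarith
  have h4 : (1 : ℝ) ≤ (1 + E) ^ (1 + 1 / (N : ℝ)) := Real.one_le_rpow (by linarith) (by positivity)
  have h5 : (1 + E) ^ (1 + 1 / (N : ℝ)) = (1 + E) * (1 + E) ^ (1 / (N : ℝ)) := by
    rw [Real.rpow_add (by linarith), Real.rpow_one]
  have h6 : 36 * X ≤ 36 * (1 + E) ^ (1 + 1 / (N : ℝ)) * X := by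
    have := mul_le_mul_of_nonneg_right h4 hX0
    linarith
  calc ((Qj n j).card : ℝ) ≤ (1 + E) * (K * (1 + E) ^ (1 / (N : ℝ)) * X + B) := h1.trans h2
    _ = K * ((1 + E) * (1 + E) ^ (1 / (N : ℝ))) * X + (1 + E) * B := by ring
    _ ≤ K * (1 + E) ^ (1 + 1 / (N : ℝ)) * X + 36 * (1 + E) ^ (1 + 1 / (N : ℝ)) * X := by
        rw [← h5]
        linarith
    _ = _ := by ring

end Pool.Agent.helper6.ME
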