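import Pool.Agent.helper20.MPN.G
import Pool.Agent.helper20.MPN.D
import Pool.Agent.helper20.MPN.F

set_option autoImplicit false

/-!
# ME: the multiplier of multiply perfect numbers against the largest exponent (MP_5f35f4_nt)

Goal: for every `ε > 0` there is `C` with `σ(n)/n ≤ C (1 + E(n))^(1 + ε)` for all multiply perfect `n`,
`E(n) = maxExp n` the largest exponent in the factorization of `n`.
-/

namespace Pool.Agent.helper6.ME

open Finset Pool.Agent.helper20.MPN

/-- the primes in `(M, w]` which are 1 modulo `l` -/
def PA (l M w : ℕ) : Finset ℕ := (Ioc M w).filter fun p => p.Prime ∧ p % l = 1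

/-- the residue classes removed modulo `p`: as `RR`, but the roots of `cyc l` only above `M` -/
def RM (l M p : ℕ) : Finset ℕ := if p % l = 1 ∧ M < p then insert 0 (roots l p) else {0}

/-- the prime factors of `n` in `(2 ^ j, 2 ^ (j + 1)]` -/
def Qj (n j : ℕ) : Finset ℕ := n.primeFactors.filter fun p => 2 ^ j < p ∧ p ≤ 2 ^ (j + 1)

end Pool.Agent.helper6.ME
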