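import Pool.Agent.helper6.ME.D

set_option autoImplicit false

open Finset Pool.Agent.helper20.MPN

namespace Pool.Agent.helper6.ME

theorem E_tele (J : ℕ) (hJ : 2 ≤ J) (m : ℕ) :
    ∑ j ∈ Ico J (J + m), (1 : ℝ) / (j : ℝ) ^ 2 ≤ 1 / ((J : ℝ) - 1) - 1 / ((J : ℝ) + m - 1) := by
  have hJ2 : (2 : ℝ) ≤ J := by exact_mod_cast hJ
  induction m with
  | zero => simp
  | succ m ih =>
    rw [← add_assoc, Finset.sum_Ico_succ_top (by omega)]
    have h0 : (0 : ℝ) ≤ (m : ℝ) := Nat.cast_nonneg _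
    have h1 : (1 : ℝ) / ((J + m : ℕ) : ℝ) ^ 2 ≤
        1 / ((J : ℝ) + m - 1) - 1 / ((J : ℝ) + (m + 1 : ℕ) - 1) := by
      push_cast
      have h2 : (0 : ℝ) < (J : ℝ) + m - 1 := by linarith
      have h3 : (0 : ℝ) < (J : ℝ) + (m + 1) - 1 := by linarith
      rw [div_sub_div _ _ h2.ne' h3.ne', div_le_div_iff₀ (by positivity) (by positivity)]
      nlinarith
    linarith

/-- the large prime factors have bounded reciprocal sum -/
theorem E_sum (N : ℕ) (hN : 1 ≤ N) : ∃ C : ℝ, 0 ≤ C ∧ ∀ n k : ℕ, 0 < n → 0 < k →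
    ArithmeticFunction.sigma 1 n = k * n → ∀ J : ℕ, 4 * mm n k ≤ J →
      (1 + (maxExp n : ℝ)) ^ (1 + 1 / (N : ℝ)) ≤ J →
        ∑ p ∈ n.primeFactors.filter (fun p => 2 ^ J < p), (1 : ℝ) / p ≤ C := by
  classical
  obtain ⟨K, hK, h⟩ := D_dyadic N hN
  refine ⟨2 * K, by linarith, fun n k hn hk hs J hJ hX => ?_⟩
  set s := n.primeFactors.filter (fun p => 2 ^ J < p) with hsdef
  set X : ℝ := (1 + (maxExp n : ℝ)) ^ (1 + 1 / (N : ℝ)) with hXdef
  have hX0 : 0 ≤ X := Real.rpow_nonneg (by positivity) _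
  have hJ4 : 4 ≤ J := by
    have : 1 ≤ mm n k := by
      unfold mm
      omega
    omega
  have hmem : ∀ p ∈ s, 2 ^ J < p ∧ p ∈ n.primeFactors ∧ p ≤ n := by
    intro p hp
    rw [hsdef, Finset.mem_filter] at hp
    exact ⟨hp.2, hp.1, Nat.le_of_dvd hn (Nat.dvd_of_mem_primeFactors hp.1)⟩
  have hmaps : ∀ p ∈ s, Nat.log 2 (p - 1) ∈ Ico J (J + (n + 1)) := by
    intro p hp
    obtain ⟨h1, h2, h3⟩ := hmem p hp
    rw [Finset.mem_Ico]
    have h4 : Nat.log 2 (p - 1) ≤ p - 1 := Nat.log_le_self _ _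
    have h5 : J ≤ Nat.log 2 (p - 1) := Nat.le_log_of_pow_le (by norm_num) (by omega)
    omega
  rw [← Finset.sum_fiberwise_of_maps_to hmaps]
  have hj : ∀ j ∈ Ico J (J + (n + 1)), ∑ p ∈ s.filter (fun p => Nat.log 2 (p - 1) = j),
      (1 : ℝ) / p ≤ K * X * (1 / (j : ℝ) ^ 2) := by
    intro j hjI
    rw [Finset.mem_Ico] at hjI
    have hsub : s.filter (fun p => Nat.log 2 (p - 1) = j) ⊆ Qj n j := by
      intro p hp
      rw [Finset.mem_filter] at hp
      obtain ⟨h1, h2, -⟩ := hmem p hp.1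
      unfold Qj
      rw [Finset.mem_filter]
      have h3 : 1 ≤ 2 ^ J := Nat.one_le_two_pow
      have h4 : p - 1 ≠ 0 := by omega
      have h5 := Nat.pow_log_le_self 2 h4
      have h6 := Nat.lt_pow_succ_log_self (b := 2) (by norm_num) (p - 1)
      rw [hp.2] at h5 h6
      exact ⟨h2, by omega, by omega⟩
    have h2j : (0 : ℝ) < 2 ^ j := by positivity
    calc ∑ p ∈ s.filter (fun p => Nat.log 2 (p - 1) = j), (1 : ℝ) / p
        ≤ ∑ p ∈ Qj n j, (1 : ℝ) / p :=
          Finset.sum_le_sum_of_subset_of_nonneg hsub fun p _ _ => by positivity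
      _ ≤ ∑ p ∈ Qj n j, (1 : ℝ) / 2 ^ j := by
          apply Finset.sum_le_sum
          intro p hp
          unfold Qj at hp
          rw [Finset.mem_filter] at hp
          apply one_div_le_one_div_of_le h2j
          exact_mod_cast hp.2.1.le
      _ = ((Qj n j).card : ℝ) * (1 / 2 ^ j) := by
          rw [Finset.sum_const, nsmul_eq_mul]
      _ ≤ (K * X * (2 ^ j / (j : ℝ) ^ 2)) * (1 / 2 ^ j) :=
          mul_le_mul_of_nonneg_right (h n k hn hk hs j (by omega)) (by positivity)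
      _ = K * X * (1 / (j : ℝ) ^ 2) := by
          field_simp
  have hJR : (4 : ℝ) ≤ J := by exact_mod_cast hJ4
  calc ∑ j ∈ Ico J (J + (n + 1)), ∑ p ∈ s.filter (fun p => Nat.log 2 (p - 1) = j), (1 : ℝ) / p
      ≤ ∑ j ∈ Ico J (J + (n + 1)), K * X * (1 / (j : ℝ) ^ 2) := Finset.sum_le_sum hj
    _ = K * X * ∑ j ∈ Ico J (J + (n + 1)), 1 / (j : ℝ) ^ 2 := by rw [Finset.mul_sum]
    _ ≤ K * X * (2 / J) := by
        apply mul_le_mul_of_nonneg_left _ (mul_nonneg hK hX0)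
        have h1 := E_tele J (by omega) (n + 1)
        have h2 : (0 : ℝ) ≤ 1 / ((J : ℝ) + (n + 1 : ℕ) - 1) := by
          apply div_nonneg zero_le_one
          have : (0 : ℝ) ≤ ((n + 1 : ℕ) : ℝ) := Nat.cast_nonneg _
          linarith
        have h3 : 1 / ((J : ℝ) - 1) ≤ 2 / J := by
          rw [div_le_div_iff₀ (by linarith) (by linarith)]
          linarith
        linarith
    _ ≤ K * J * (2 / J) := by
        apply mul_le_mul_of_nonneg_right (mul_le_mul_of_nonneg_left hX hK) (by positivity)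
    _ = 2 * K := by
        field_simp

end Pool.Agent.helper6.ME
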