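import Pool.Agent.helper6.ME.E

set_option autoImplicit false

/-!
# ME-F: the multiplier against the largest exponent
-/

open Finset Pool.Agent.helper20.MPN

namespace Pool.Agent.helper6.ME

theorem F_one_le (n : ℕ) : (1 : ℝ) ≤ 1 + (maxExp n : ℝ) := by
  have : (0 : ℝ) ≤ (maxExp n : ℝ) := Nat.cast_nonneg _
  linarith

/-- all reciprocals of prime factors -/
theorem F_sum (N : ℕ) (hN : 1 ≤ N) : ∃ C : ℝ, ∀ n k : ℕ, 0 < n → 0 < k →
    ArithmeticFunction.sigma 1 n = k * n → ∀ J : ℕ, 4 * mm n k ≤ J →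
      (1 + (maxExp n : ℝ)) ^ (1 + 1 / (N : ℝ)) ≤ J →
        ∑ p ∈ n.primeFactors, (1 : ℝ) / p ≤ Real.log (Real.log ((2 ^ J : ℕ) : ℝ)) + C := by
  classical
  obtain ⟨C1, hC1, h1⟩ := E_sum N hN
  obtain ⟨C0, hC0⟩ := sum_inv_upper
  refine ⟨C0 + C1, fun n k hn hk hs J hJ hX => ?_⟩
  have hJ4 : 4 ≤ J := by
    have : 1 ≤ mm n k := by
      unfold mm
      omega
    omega
  have hz : 3 ≤ 2 ^ J := by
    calc 3 ≤ 2 ^ 4 := by norm_num
      _ ≤ 2 ^ J := Nat.pow_le_pow_right (by norm_num) hJ4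
  have hsub : n.primeFactors ⊆ (range (2 ^ J + 1)).filter Nat.Prime ∪
      n.primeFactors.filter (fun p => 2 ^ J < p) := by
    intro p hp
    rw [Finset.mem_union]
    rcases Nat.lt_or_ge (2 ^ J) p with h | h
    · exact Or.inr (Finset.mem_filter.2 ⟨hp, h⟩)
    · exact Or.inl (Finset.mem_filter.2
        ⟨Finset.mem_range.2 (Nat.lt_succ_iff.2 h), Nat.prime_of_mem_primeFactors hp⟩)
  have hf : ∀ x : ℕ, (0 : ℝ) ≤ 1 / x := fun x => by positivity
  calc ∑ p ∈ n.primeFactors, (1 : ℝ) / p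
      ≤ ∑ p ∈ (range (2 ^ J + 1)).filter Nat.Prime ∪
          n.primeFactors.filter (fun p => 2 ^ J < p), (1 : ℝ) / p :=
        Finset.sum_le_sum_of_subset_of_nonneg hsub fun p _ _ => hf p
    _ ≤ ∑ p ∈ (range (2 ^ J + 1)).filter Nat.Prime, (1 : ℝ) / p +
          ∑ p ∈ n.primeFactors.filter (fun p => 2 ^ J < p), (1 : ℝ) / p := F_union_le _ _ _ hf
    _ ≤ (Real.log (Real.log ((2 ^ J : ℕ) : ℝ)) + C0) + C1 :=
        add_le_add (hC0 (2 ^ J) hz) (h1 n k hn hk hs J hJ hX)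
    _ = _ := by ring

theorem F_mm {n k : ℕ} (hk : 0 < k) :
    (mm n k : ℝ) ≤ 8 * Real.log (2 + maxExp n + Real.log k) := by
  have h := F_log_z (n := n) hk
  push_cast at h
  rw [Real.log_pow] at h
  push_cast at h
  have h2 := Real.log_two_gt_d9
  have h3 : (0 : ℝ) ≤ (mm n k : ℝ) := Nat.cast_nonneg _
  nlinarith

/-- the multiplier is at most `C (1 + E)^(1 + 1/N)` -/
theorem F_nat (N : ℕ) (hN : 1 ≤ N) : ∃ C : ℝ, 0 < C ∧ ∀ n k : ℕ, 0 < n → 0 < k →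
    ArithmeticFunction.sigma 1 n = k * n →
      (k : ℝ) ≤ C * (1 + (maxExp n : ℝ)) ^ (1 + 1 / (N : ℝ)) := by
  obtain ⟨C, hC⟩ := F_sum N hN
  obtain ⟨K, hK⟩ : ∃ K : ℝ, K = Real.exp (C + 1) := ⟨_, rfl⟩
  have hK0 : 0 < K := by
    rw [hK]
    exact Real.exp_pos _
  refine ⟨68 * K + 4096 * K ^ 2, by positivity, fun n k hn hk hs => ?_⟩
  have hE1 := F_one_le n
  set X : ℝ := (1 + (maxExp n : ℝ)) ^ (1 + 1 / (N : ℝ)) with hX
  have hXE : 1 + (maxExp n : ℝ) ≤ X := by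
    have h := Real.rpow_le_rpow_of_exponent_le hE1 (y := 1) (z := 1 + 1 / (N : ℝ)) (by
      have : (0 : ℝ) ≤ 1 / (N : ℝ) := by positivity
      linarith)
    rwa [Real.rpow_one] at h
  set J : ℕ := max (4 * mm n k) ⌈X⌉₊ with hJ
  have h1 := hC n k hn hk hs J (le_max_left _ _)
    ((Nat.le_ceil X).trans (by exact_mod_cast le_max_right _ _))
  have hmm1 : 1 ≤ mm n k := by
    unfold mm
    omega
  have hJ1 : 1 ≤ J := le_trans (by omega) (le_max_left _ _)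
  have hJle : (J : ℝ) ≤ 4 * mm n k + X + 1 := by
    have h2 : ((⌈X⌉₊ : ℕ) : ℝ) < X + 1 := Nat.ceil_lt_add_one (by linarith)
    have h3 : (J : ℝ) ≤ ((4 * mm n k + ⌈X⌉₊ : ℕ) : ℝ) := by
      have : J ≤ 4 * mm n k + ⌈X⌉₊ := max_le (by omega) (by omega)
      exact_mod_cast this
    push_cast at h3
    linarith
  have hlz : 0 < Real.log ((2 ^ J : ℕ) : ℝ) := by
    apply Real.log_pos
    have h5 : 1 < 2 ^ J := Nat.one_lt_two_pow (by omega)
    exact_mod_cast h5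
  have hlJ : Real.log ((2 ^ J : ℕ) : ℝ) ≤ J := by
    push_cast
    rw [Real.log_pow]
    have h2 := Real.log_two_lt_d9
    have h3 : (0 : ℝ) ≤ (J : ℝ) := Nat.cast_nonneg _
    nlinarith
  have hkJ : (k : ℝ) ≤ K * J := by
    have h2 := le_prod hn
    have h3 : (ArithmeticFunction.sigma 1 n : ℝ) / n = k := by
      have hn0 : (n : ℝ) ≠ 0 := by exact_mod_cast hn.ne'
      rw [hs]
      push_cast
      field_simp
    rw [h3] at h2
    have h4 := F_prod_le n.primeFactors fun p hp => (Nat.prime_of_mem_primeFactors hp).two_le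
    calc (k : ℝ) ≤ Real.exp (∑ p ∈ n.primeFactors, (1 : ℝ) / p + 1) := h2.trans h4
      _ ≤ Real.exp (Real.log (Real.log ((2 ^ J : ℕ) : ℝ)) + (C + 1)) :=
          Real.exp_le_exp.2 (by linarith)
      _ = Real.log ((2 ^ J : ℕ) : ℝ) * K := by
          rw [Real.exp_add, Real.exp_log hlz, hK]
      _ ≤ J * K := mul_le_mul_of_nonneg_right hlJ hK0.le
      _ = K * J := mul_comm _ _
  have hk1 : (1 : ℝ) ≤ k := by exact_mod_cast hk
  have hk0 : (0 : ℝ) < k := by linarith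
  have hlogk : 0 ≤ Real.log k := Real.log_nonneg hk1
  -- `log (2 + E + log k) ≤ (1 + E) + 2 √k`
  have hlog : Real.log (2 + maxExp n + Real.log k) ≤ X + 2 * Real.sqrt k := by
    have h2 : Real.log (2 + maxExp n + Real.log k) ≤ (2 + maxExp n + Real.log k) - 1 :=
      Real.log_le_sub_one_of_pos (by
        have : (0 : ℝ) ≤ (maxExp n : ℝ) := Nat.cast_nonneg _
        linarith)
    have h3 : Real.log k ≤ 2 * Real.sqrt k := by
      have h4 : Real.log k = 2 * Real.log (Real.sqrt k) := by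
        rw [Real.log_sqrt hk0.le]
        ring
      have h5 : Real.log (Real.sqrt k) ≤ Real.sqrt k - 1 :=
        Real.log_le_sub_one_of_pos (Real.sqrt_pos.2 hk0)
      rw [h4]
      linarith
    linarith
  have hmm := F_mm (n := n) hk
  have hs0 : 0 ≤ Real.sqrt k := Real.sqrt_nonneg _
  have hs2 : Real.sqrt k ^ 2 = k := Real.sq_sqrt hk0.le
  have hX1 : 1 ≤ X := hE1.trans hXE
  have h5 : (J : ℝ) ≤ 34 * X + 64 * Real.sqrt k := by linarith
  have h6 : (k : ℝ) ≤ K * (34 * X + 64 * Real.sqrt k) :=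
    hkJ.trans (mul_le_mul_of_nonneg_left h5 hK0.le)
  have h7 : K * (64 * Real.sqrt k) ≤ k / 2 + 2048 * K ^ 2 := by
    nlinarith [sq_nonneg (Real.sqrt k - 64 * K)]
  have h8 : K ^ 2 ≤ K ^ 2 * X := le_mul_of_one_le_right (by positivity) hX1
  nlinarith

/-- **the multiplier of a multiply perfect number is at most `C (1 + E)^(1 + ε)`** -/
theorem main (ε : ℝ) (hε : 0 < ε) : ∃ C : ℝ, 0 < C ∧ ∀ n k : ℕ, 0 < n →
    ArithmeticFunction.sigma 1 n = k * n →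
      (k : ℝ) ≤ C * (1 + (maxExp n : ℝ)) ^ (1 + ε) := by
  obtain ⟨N, hN⟩ := exists_nat_gt (1 / ε)
  have hN0 : (0 : ℝ) < N := lt_trans (by positivity) hN
  have hN1 : 1 ≤ N := by
    have : 0 < N := by exact_mod_cast hN0
    omega
  have hNε : 1 / (N : ℝ) ≤ ε := by
    rw [div_le_iff₀ hN0]
    rw [div_lt_iff₀ hε] at hN
    linarith
  obtain ⟨C, hC, h⟩ := F_nat N hN1
  refine ⟨C, hC, fun n k hn hs => ?_⟩
  have hE1 := F_one_le n
  rcases Nat.eq_zero_or_pos k with hk | hk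
  · rw [hk, Nat.cast_zero]
    exact mul_nonneg hC.le (Real.rpow_nonneg (by linarith) _)
  · refine (h n k hn hk hs).trans (mul_le_mul_of_nonneg_left ?_ hC.le)
    exact Real.rpow_le_rpow_of_exponent_le hE1 (by linarith)

open Filter in
/-- Q1 along the multiply perfect numbers with `E ≤ (log log n)^(1 - δ)` -/
theorem little_o (δ : ℝ) (hδ : 0 < δ) (hδ1 : δ < 1) :
    (fun n : ℕ => (ArithmeticFunction.sigma 1 n : ℝ) / n)
      =o[atTop ⊓ 𝓟 {n : ℕ | (∃ k, ArithmeticFunction.sigma 1 n = k * n) ∧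
          (maxExp n : ℝ) ≤ Real.log (Real.log n) ^ (1 - δ)}]
      fun n : ℕ => Real.log (Real.log n) := by
  obtain ⟨C, hC, h⟩ := main δ hδ
  rw [Asymptotics.isLittleO_iff]
  intro c hc
  rw [Filter.eventually_inf_principal]
  have ht : Tendsto (fun n : ℕ => Real.log (Real.log (n : ℝ))) atTop atTop :=
    Real.tendsto_log_atTop.comp (Real.tendsto_log_atTop.comp tendsto_natCast_atTop_atTop)
  -- `C (2 y^(1-δ))^(1+δ) ≤ c y` for large `y`
  have hδ2 : 0 < δ ^ 2 := by positivity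
  have ht2 : Tendsto (fun y : ℝ => y ^ (δ ^ 2)) atTop atTop := tendsto_rpow_atTop hδ2
  obtain ⟨B, hB⟩ : ∃ B : ℝ, B = C * 2 ^ (1 + δ) / c := ⟨_, rfl⟩
  filter_upwards [ht.eventually_ge_atTop 1, (ht2.comp ht).eventually_ge_atTop B,
    eventually_gt_atTop 0] with n h1 h2 hn0 hn
  obtain ⟨⟨k, hk⟩, hE⟩ := hn
  set y : ℝ := Real.log (Real.log (n : ℝ)) with hy
  have hy0 : 0 < y := by linarith
  have hn' : (n : ℝ) ≠ 0 := by exact_mod_cast hn0.ne'
  have e : (ArithmeticFunction.sigma 1 n : ℝ) / n = k := by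
    rw [hk]
    push_cast
    field_simp
  have h3 := h n k hn0 hk
  have hyd : 1 ≤ y ^ (1 - δ) := Real.one_le_rpow h1 (by linarith)
  have h4 : (1 + (maxExp n : ℝ)) ^ (1 + δ) ≤ (2 * y ^ (1 - δ)) ^ (1 + δ) :=
    Real.rpow_le_rpow (by linarith [F_one_le n]) (by linarith) (by linarith)
  have h5 : (2 * y ^ (1 - δ)) ^ (1 + δ) = 2 ^ (1 + δ) * (y / y ^ (δ ^ 2)) := by
    rw [Real.mul_rpow (by norm_num) (Real.rpow_nonneg hy0.le _), ← Real.rpow_mul hy0.le,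
      show (1 - δ) * (1 + δ) = 1 - δ ^ 2 by ring, Real.rpow_sub hy0, Real.rpow_one]
  have hyp : 0 < y ^ (δ ^ 2) := Real.rpow_pos_of_pos hy0 _
  have h6 : C * (2 ^ (1 + δ) * (y / y ^ (δ ^ 2))) ≤ c * y := by
    have h7 : C * 2 ^ (1 + δ) ≤ c * y ^ (δ ^ 2) := by
      have h8 : B ≤ y ^ (δ ^ 2) := h2
      rw [hB, div_le_iff₀ hc] at h8
      linarith
    rw [show C * (2 ^ (1 + δ) * (y / y ^ (δ ^ 2))) = (C * 2 ^ (1 + δ)) * y / y ^ (δ ^ 2) by ring,
      div_le_iff₀ hyp]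
    nlinarith
  rw [e, Real.norm_of_nonneg (Nat.cast_nonneg _), Real.norm_of_nonneg hy0.le]
  calc (k : ℝ) ≤ C * (1 + (maxExp n : ℝ)) ^ (1 + δ) := h3
    _ ≤ C * (2 * y ^ (1 - δ)) ^ (1 + δ) := mul_le_mul_of_nonneg_left h4 hC.le
    _ = C * (2 ^ (1 + δ) * (y / y ^ (δ ^ 2))) := by rw [h5]
    _ ≤ c * y := h6

end Pool.Agent.helper6.ME
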